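import Pool.Agent.Helper12_UBI.Final

/-!
Statements for the local theorem: `y (y + h) = c ρ`, `c` a nonunit, `h` and `ρ` coprime modulo
the uniformizer. `J = (y, c)` is an invertible ideal, `Pr h r c j w s` says that `w` lies in
`J ^ j` with cofactor `s`.
-/

open Polynomial

namespace Pool.Agent.TS

open H12UBI H58UB

section
variable {A : Type} [CommRing A]

/-- `y` -/
noncomputable def yy (h r : A[X]) : CR A h r := ⟨0, 1⟩

/-- `y + h` -/
noncomputable def yh (h r : A[X]) : CR A h r := ⟨h, 1⟩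

/-- `w (y + h) ^ j = c ^ j s` -/
def Pr (h r : A[X]) (c : A) (j : ℕ) (w s : CR A h r) : Prop :=
  w * yh h r ^ j = cst h r (c ^ j) * s

end

section
variable {V : Type} [CommRing V] [IsDomain V] [IsDiscreteValuationRing V]

/-- reduction of polynomials -/
noncomputable abbrev rd (V : Type) [CommRing V] [IsLocalRing V] (q : V[X]) :
    (IsLocalRing.ResidueField V)[X] :=
  q.map (IsLocalRing.residue V)

/-- the local data -/
structure Dat (g : ℕ) (h r ρ : V[X]) (c π : V) : Prop where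
  shape : Shape g h r
  irr : Irreducible π
  c0 : c ≠ 0
  pc : π ∣ c
  hr : r = C c * ρ
  cop : IsCoprime (rd V h) (rd V ρ)

/-- approximation of level `t` to a generator of `J ^ j` with divisor `(g + 1) j (∞₀ - ∞₁)` -/
structure LevJ {g : ℕ} {h r : V[X]} (S : Shape g h r) (c π : V) (t j : ℕ)
    (w s : CR V h r) : Prop where
  pr : Pr h r c j w s
  p0 : Ge (-((3 * (g + 1) * j : ℕ) : ℤ)) (e0 S s)
  p1 : Ge (-((2 * (g + 1) * j : ℕ) : ℤ)) (e1 S w)
  d0 : D (π ^ t) 0 (e0 S s)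
  d1 : D (π ^ t) (-(((g + 1) * j : ℕ) : ℤ)) (e1 S w)
  ne : rd V s.re ≠ 0

/-- exact version: `u` has a zero of order `(g + 1) e` at `∞₀` and a pole of this order at `∞₁`,
generates `J ^ e`, `s` is the cofactor. -/
structure Exact {g : ℕ} {h r : V[X]} (S : Shape g h r) (c : V) (e : ℕ)
    (u s : CR V h r) (ν : V) : Prop where
  pr : Pr h r c e u s
  p0 : Ge 0 (e0 S s)
  p1 : Ge (-(((g + 1) * e : ℕ) : ℤ)) (e1 S u)
  nu : IsUnit ν
  norm : u * star u = cst h r (c ^ e * ν)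

end

/-! ## Module statements -/

/-- ZO: an element divisible by `a` after multiplication by powers of `y + h` and of `y`. -/
def ZoStmt : Prop := ∀ (A : Type) [CommRing A] (h r : A[X]), h.Monic → ∀ (a : A) (m n : ℕ)
  (x z z' : CR A h r), x * yh h r ^ m = cst h r a * z → x * yy h r ^ n = cst h r a * z' →
  ∃ z'', x = cst h r a * z''

/-- RG: regular modulo `a` at both points at infinity. -/
def RgStmt : Prop := ∀ (A : Type) [CommRing A] (g : ℕ) (h r : A[X]) (S : Shape g h r) (a : A)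
  (z : CR A h r), D a 0 (e0 S z) → D a 0 (e1 S z) →
  ∃ c₀ δ, z = cst h r c₀ + cst h r a * δ

/-- ST: structure modulo the uniformizer. -/
def StStmt : Prop := ∀ (V : Type) [CommRing V] [IsDomain V] [IsDiscreteValuationRing V] (g : ℕ)
  (h r ρ : V[X]) (c π : V), Dat g h r ρ c π → ∀ (j : ℕ) (w s : CR V h r), Pr h r c j w s →
  ∃ b : (IsLocalRing.ResidueField V)[X],
    rd V (w.re - h * w.im) = rd V h ^ j * b ∧
    rd V (s.re - h * s.im) = (-rd V ρ) ^ j * b

/-- TR: exact elements (primitive) are generators of a power of `J`. -/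
def TrStmt : Prop := ∀ (V : Type) [CommRing V] [IsDomain V] [IsDiscreteValuationRing V] (g : ℕ)
  (h r ρ : V[X]) (c π : V), Dat g h r ρ c π → ∀ (S : Shape g h r) (N : ℕ), 0 < N →
  ∀ u : CR V h r, cmap (IsLocalRing.residue V) h r u ≠ 0 → Ge (N : ℤ) (e0 S u) →
    Ge (-(N : ℤ)) (e1 S u) →
  ∃ (e : ℕ) (s : CR V h r) (ν : V) (a b : IsLocalRing.ResidueField V),
    N = (g + 1) * e ∧ Exact S c e u s ν ∧ a ≠ 0 ∧ b ≠ 0 ∧ rd V s.re = C a ∧
    rd V h ∣ C a - (-rd V ρ) ^ e * C b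

/-- RE: reduction of an approximation. -/
def ReStmt : Prop := ∀ (V : Type) [CommRing V] [IsDomain V] [IsDiscreteValuationRing V] (g : ℕ)
  (h r ρ : V[X]) (c π : V), Dat g h r ρ c π → ∀ (S : Shape g h r) (t j : ℕ) (w s : CR V h r),
  1 ≤ t → LevJ S c π t j w s →
  ∃ (a b : IsLocalRing.ResidueField V), a ≠ 0 ∧ b ≠ 0 ∧ rd V s.re = C a ∧
    rd V (w.re - h * w.im) = C b * rd V h ^ j ∧ rd V h ∣ C a - (-rd V ρ) ^ j * C b

/-- LI: lifting with the same bounds for the poles. -/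
def LiStmt : Prop := ∀ (V : Type) [CommRing V] [IsDomain V] [IsDiscreteValuationRing V] (g : ℕ)
  (h r ρ : V[X]) (c π : V), Dat g h r ρ c π → ∀ (S : Shape g h r) (j : ℕ), 1 ≤ j →
  ∀ a b : (IsLocalRing.ResidueField V)[X], rd V h ∣ a - (-rd V ρ) ^ j * b →
    a.natDegree ≤ 3 * (g + 1) * j → b.natDegree ≤ (g + 1) * j →
  ∃ w s : CR V h r, Pr h r c j w s ∧ rd V (w.re - h * w.im) = rd V h ^ j * b ∧
    rd V s.re = a ∧ Ge (-((3 * (g + 1) * j : ℕ) : ℤ)) (e0 S s) ∧
    Ge (-((2 * (g + 1) * j : ℕ) : ℤ)) (e1 S w)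

/-- SP: one step of the extraction of an `l`-th root. -/
def SpStmt : Prop := ∀ (V : Type) [CommRing V] [IsDomain V] [IsDiscreteValuationRing V] (g : ℕ)
  (h r ρ : V[X]) (c π : V), Dat g h r ρ c π → ∀ (S : Shape g h r) (j l t e : ℕ) (ε : V),
  1 ≤ j → l.Prime → IsUnit ε → (l : V) = ε * π ^ e → t + e < l * t →
  ∀ (u s₀ : CR V h r) (ν : V), Exact S c (l * j) u s₀ ν →
  ∀ (w s : CR V h r), LevJ S c π t j w s → ∃ w' s', LevJ S c π (t + 1) j w' s'

/-- PW: the level of a `p`-th power. -/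
def PwStmt : Prop := ∀ (V : Type) [CommRing V] [IsDomain V] [IsDiscreteValuationRing V] (g : ℕ)
  (h r ρ : V[X]) (c π : V), Dat g h r ρ c π → ∀ (S : Shape g h r) (p : ℕ) (ε : V) (e : ℕ),
  p.Prime → (p : V) = ε * π ^ e → ∀ (t t' j : ℕ) (w s : CR V h r), LevJ S c π t j w s →
  t' ≤ t + e → t' ≤ p * t → LevJ S c π t' (p * j) (w ^ p) (s ^ p)

/-- FI: the first level. -/
def FiStmt : Prop := ∀ (V : Type) [CommRing V] [IsDomain V] [IsDiscreteValuationRing V] (g : ℕ)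
  (h r ρ : V[X]) (c π : V), Dat g h r ρ c π → Finite (IsLocalRing.ResidueField V) →
  ∀ (S : Shape g h r), ∃ m, 0 < m ∧ m ≤ Nat.card (IsLocalRing.ResidueField V) ^ (g + 1) ∧
    (∀ (e : ℕ) (a b : IsLocalRing.ResidueField V), a ≠ 0 → b ≠ 0 →
      rd V h ∣ C a - (-rd V ρ) ^ e * C b → m ∣ e) ∧
    ∀ i, 1 ≤ i → ∃ w s, LevJ S c π 1 (i * m) w s

/-- CL: approximations of all levels give an exact element. -/
def ClStmt : Prop := ∀ (V : Type) [CommRing V] [IsDomain V] [IsDiscreteValuationRing V] (g : ℕ)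
  (h r ρ : V[X]) (c π : V), Dat g h r ρ c π → ∀ (S : Shape g h r) (j : ℕ),
  (∀ t, ∃ w s, LevJ S c π t j w s) → U S ((g + 1) * j)

/-- LO: the local theorem. -/
def LoStmt : Prop := ∀ (V : Type) [CommRing V] [IsDomain V] [IsDiscreteValuationRing V] (g : ℕ)
  (h r ρ : V[X]) (c π : V), Dat g h r ρ c π → Finite (IsLocalRing.ResidueField V) →
  ∀ (S : Shape g h r) (p e : ℕ) (ε : V), p.Prime → 0 < e → IsUnit ε → (p : V) = ε * π ^ e →
  (∃ N, 0 < N ∧ U S N) →
  ∃ N, 0 < N ∧ N ≤ (g + 1) * Nat.card (IsLocalRing.ResidueField V) ^ (g + 1) * (2 * e) ∧ U S N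

end Pool.Agent.TS
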