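import Pool.Agent.Helper12_UBI.Nf

/-!
Local data at a finite place of a number field.
-/

open Polynomial NumberField IsDedekindDomain

namespace Pool.Agent.TS

open H12UBI H58UB

section

variable (E : Type) [Field E] [NumberField E] (w : HeightOneSpectrum (𝓞 E))

/-- the local ring at `w` -/
abbrev VR : Type := HeightOneSpectrum.valuationSubringAtPrime E w

theorem vr_mem (x : E) : x ∈ HeightOneSpectrum.valuationSubringAtPrime E w ↔
    w.valuation E x ≤ 1 := by
  rw [HeightOneSpectrum.valuationSubringAtPrime_eq_valuationSubring]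
  exact Iff.rfl

theorem vr_dvr : IsDiscreteValuationRing (VR E w) := by
  have hmax : w.asIdeal.IsMaximal := w.isMaximal
  have hloc : IsLocalization.AtPrime (VR E w) w.asIdeal :=
    inferInstanceAs (IsLocalization w.asIdeal.primeCompl
      (HeightOneSpectrum.valuationSubringAtPrime E w))
  exact IsLocalization.AtPrime.isDiscreteValuationRing_of_dedekind_domain (𝓞 E) w.ne_bot _

theorem vr_unit (x : VR E w) : IsUnit x ↔ w.valuation E (x : E) = 1 := by
  constructor
  · intro hx
    obtain ⟨y, hy⟩ := hx.exists_right_inv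
    have h1 := (vr_mem E w x).1 x.2
    have h2 := (vr_mem E w y).1 y.2
    have h3 : w.valuation E (x : E) * w.valuation E (y : E) = 1 := by
      rw [← map_mul]
      have := congrArg (fun z : VR E w => w.valuation E (z : E)) hy
      simpa using this
    exact le_antisymm h1 (by
      rw [← h3]
      exact mul_le_of_le_one_right' h2)
  · intro hx
    have hx0 : (x : E) ≠ 0 := by
      intro h0
      rw [h0, map_zero] at hx
      exact zero_ne_one hx
    have h1 : (x : E)⁻¹ ∈ HeightOneSpectrum.valuationSubringAtPrime E w := by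
      rw [vr_mem, map_inv₀, hx, inv_one]
    refine IsUnit.of_mul_eq_one ⟨(x : E)⁻¹, h1⟩ ?_
    apply Subtype.ext
    exact mul_inv_cancel₀ hx0

theorem vr_lt (x : VR E w) : ¬ IsUnit x ↔ w.valuation E (x : E) < 1 := by
  rw [vr_unit]
  constructor
  · intro h
    exact lt_of_le_of_ne ((vr_mem E w x).1 x.2) h
  · intro h
    exact h.ne

theorem vr_lift {q : E[X]} (hq : ∀ j, w.valuation E (q.coeff j) ≤ 1) :
    ∃ q' : (VR E w)[X], q'.map (algebraMap (VR E w) E) = q := by
  refine (Polynomial.mem_lifts _).1 ((Polynomial.lifts_iff_coeff_lifts _).2 fun j => ?_)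
  exact ⟨⟨q.coeff j, (vr_mem E w _).2 (hq j)⟩, rfl⟩

theorem vr_inj : Function.Injective (algebraMap (VR E w) E) := IsFractionRing.injective _ E

variable {p : ℕ} (hp : p.Prime) (hpw : ((p : ℕ) : 𝓞 E) ∈ w.asIdeal)

include hp hpw

theorem vr_card : Finite (IsLocalRing.ResidueField (VR E w)) ∧
    Nat.card (IsLocalRing.ResidueField (VR E w)) ≤ p ^ Module.finrank ℚ E := by
  have hmax : w.asIdeal.IsMaximal := w.isMaximal
  have hloc : IsLocalization.AtPrime (VR E w) w.asIdeal :=
    inferInstanceAs (IsLocalization w.asIdeal.primeCompl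
      (HeightOneSpectrum.valuationSubringAtPrime E w))
  obtain ⟨hfin, hcard⟩ := card_le E w hp hpw
  let eq : (𝓞 E ⧸ w.asIdeal) ≃+* IsLocalRing.ResidueField (VR E w) :=
    IsLocalization.AtPrime.equivQuotMaximalIdeal w.asIdeal (VR E w)
  refine ⟨Finite.of_equiv _ eq.toEquiv, ?_⟩
  rw [← Nat.card_congr eq.toEquiv]
  exact hcard

theorem vr_ram {π : VR E w} (hπ : Irreducible π) :
    ∃ (e : ℕ) (ε : VR E w), 0 < e ∧ e ≤ Module.finrank ℚ E ∧ IsUnit ε ∧
      ((p : ℕ) : VR E w) = ε * π ^ e := by
  have hdvr := vr_dvr E w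
  have hp0 : ((p : ℕ) : VR E w) ≠ 0 := by
    intro h0
    have h1 := congrArg (fun z : VR E w => (z : E)) h0
    have h2 : (p : E) = 0 := by simpa using h1
    exact hp.ne_zero (by exact_mod_cast h2)
  obtain ⟨e, ε, hpe⟩ := IsDiscreteValuationRing.eq_unit_mul_pow_irreducible hp0 hπ
  have hvp : w.valuation E (p : E) < 1 := by
    have h1 : w.valuation E (algebraMap (𝓞 E) E ((p : ℕ) : 𝓞 E)) < 1 := by
      rw [HeightOneSpectrum.valuation_lt_one_iff_mem]
      exact hpw
    simpa using h1
  have hvp' : w.valuation E (p : E) = w.valuation E (π : E) ^ e := by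
    have h1 := congrArg (fun z : VR E w => w.valuation E (z : E)) hpe
    have h2 : w.valuation E (p : E) = w.valuation E ((ε : VR E w) : E) *
        w.valuation E (π : E) ^ e := by
      simpa using h1
    rw [h2, (vr_unit E w _).1 ε.isUnit, one_mul]
  have he : 0 < e := by
    rcases Nat.eq_zero_or_pos e with h0 | h0
    · rw [h0, pow_zero] at hvp'
      exact absurd hvp' hvp.ne
    · exact h0
  have hπ1 : w.valuation E (π : E) ≤ WithZero.exp (-1) := by
    rw [← WithZero.lt_mul_exp_iff_le (by simp)]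
    have : (WithZero.exp (-1 : ℤ)) * WithZero.exp (1 : ℤ) = 1 := by
      rw [← WithZero.exp_add]; simp
    rw [this]
    exact (vr_lt E w π).1 hπ.not_isUnit
  refine ⟨e, ε, he, ?_, ε.isUnit, hpe⟩
  refine exp_le E w hp hpw ?_
  rw [hvp']
  have h1 : (WithZero.exp (-(e : ℤ))) = WithZero.exp (-1 : ℤ) ^ e := by
    rw [← WithZero.exp_nsmul]
    simp
  rw [h1]
  exact pow_le_pow_left₀ (by simp) hπ1 e

end

end Pool.Agent.TS
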