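import Pool.Agent.Helper12_UBI.Ext

/-!
Units of given order and the norm equation; invariance under affine substitutions.
-/

open Polynomial

namespace Pool.Agent.TS

open H12UBI H58UB

section
variable {F : Type*} [Field F] {g : ℕ} {h r : F[X]}

/-- units of order `n` are the solutions of the norm equation of degree `n` -/
theorem U_iff (S : Shape g h r) (hr : r ≠ 0) {n : ℕ} (hn : 0 < n) :
    U S n ↔ ∃ (u : CR F h r) (c : F), c ≠ 0 ∧ u.norm = C c ∧ u.im ≠ 0 ∧
      u.im.natDegree + (g + 1) = n := by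
  constructor
  · rintro ⟨u, hu, h0, h1⟩
    obtain ⟨c, hc, hnorm, hcc⟩ := U_spec hr hu h0 h1
    have hc1 : (e1 S u).coeff (-(n : ℤ)) ≠ 0 := by
      intro h2
      rw [h2, mul_zero] at hcc
      exact hc hcc.symm
    have hfn : Fn S n u := ⟨h0.mono (by omega), h1⟩
    have h2 : Ge (-(n : ℤ)) (ex F u.im * (-ex F h - 2 * y0 S)) := by
      rw [← e1_sub_e0]
      exact hfn.2.sub hfn.1
    have h3 := ge_of_mul (ge_q S) (by rw [coeff_q]; exact isUnit_one.neg) h2
    have h4 : (ex F u.im).coeff (-(n : ℤ) - (-((g + 1 : ℕ) : ℤ))) ≠ 0 := by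
      intro h5
      have h6 := Ge.coeff_mul h3 (ge_q S)
      rw [h5, zero_mul] at h6
      have h7 : (-(n : ℤ) - (-((g + 1 : ℕ) : ℤ)) + (-((g + 1 : ℕ) : ℤ))) = -(n : ℤ) := by ring
      rw [h7, ← e1_sub_e0, HahnSeries.coeff_sub, h0 _ (by omega), sub_zero] at h6
      exact hc1 h6
    have h5 : ¬ (0 < (-(n : ℤ) - (-((g + 1 : ℕ) : ℤ)))) := fun h6 => h4 (coeff_ex_pos _ h6)
    obtain ⟨m, hm⟩ : ∃ m : ℕ, n = m + (g + 1) := ⟨n - (g + 1), by omega⟩
    have h6 : (-(n : ℤ) - (-((g + 1 : ℕ) : ℤ))) = -(m : ℤ) := by omega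
    rw [h6] at h3 h4
    rw [coeff_ex_neg] at h4
    refine ⟨u, c, hc, hnorm, fun h0 => h4 (by rw [h0, coeff_zero]), ?_⟩
    have h7 : u.im.natDegree ≤ m := natDegree_le_of_ge h3
    have h8 : m ≤ u.im.natDegree := le_natDegree_of_ne_zero h4
    omega
  · rintro ⟨u, c, hc, hnorm, him, hdeg⟩
    have hprod : e0 S u * e1 S u = HahnSeries.C c := by rw [e0_mul_e1, hnorm, ex_C]
    have hCc : (HahnSeries.C c : LaurentSeries F) ≠ 0 := by
      intro h1
      have h2 := congrArg (fun s : LaurentSeries F => s.coeff 0) h1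
      rw [HahnSeries.C_apply] at h2
      simp only [HahnSeries.coeff_single_same, HahnSeries.coeff_zero] at h2
      exact hc h2
    have hu0 : u ≠ 0 := by rintro rfl; exact him rfl
    have he0 : e0 S u ≠ 0 := by
      intro h1; rw [h1, zero_mul] at hprod; exact hCc hprod.symm
    have he1 : e1 S u ≠ 0 := by
      intro h1; rw [h1, mul_zero] at hprod; exact hCc hprod.symm
    obtain ⟨o0, ho0, ho0'⟩ := exists_order he0
    obtain ⟨o1, ho1, ho1'⟩ := exists_order he1
    have hsum : o0 + o1 = 0 := by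
      have h1 := Ge.coeff_mul ho0 ho1
      rw [hprod] at h1
      by_contra hne
      rw [HahnSeries.C_apply, HahnSeries.coeff_single_of_ne hne] at h1
      exact mul_ne_zero ho0' ho1' h1.symm
    -- the difference has order exactly `-n`
    have hG : Ge (-(u.im.natDegree : ℤ)) (ex F u.im) := ge_ex le_rfl
    have hd1 : Ge (-(n : ℤ)) (e1 S u - e0 S u) := by
      rw [e1_sub_e0]
      refine (hG.mul (ge_q S)).mono ?_
      omega
    have hd2 : (e1 S u - e0 S u).coeff (-(n : ℤ)) ≠ 0 := by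
      rw [e1_sub_e0]
      have h1 := Ge.coeff_mul hG (ge_q S)
      have h2 : (-(u.im.natDegree : ℤ) + -((g + 1 : ℕ) : ℤ)) = -(n : ℤ) := by omega
      rw [h2, coeff_q, coeff_ex_neg, coeff_natDegree] at h1
      rw [h1]
      exact mul_ne_zero (leadingCoeff_ne_zero.2 him) (neg_ne_zero.2 one_ne_zero)
    rcases lt_trichotomy o1 0 with hlt | heq | hgt
    · -- pole at the second point
      have h1 : Ge o1 (e1 S u - e0 S u) := ho1.sub (ho0.mono (by omega))
      have h2 : (e1 S u - e0 S u).coeff o1 ≠ 0 := by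
        rw [HahnSeries.coeff_sub, ho0 o1 (by omega), sub_zero]; exact ho1'
      have h3 : o1 = -(n : ℤ) := le_antisymm (le_of_ge h1 hd2) (le_of_ge hd1 h2)
      exact ⟨u, hu0, ho0.mono (by omega), ho1.mono (by omega)⟩
    · exfalso
      have h1 : Ge 0 (e1 S u - e0 S u) := (ho1.mono (by omega)).sub (ho0.mono (by omega))
      exact hd2 (h1 _ (by omega))
    · have h1 : Ge o0 (e1 S u - e0 S u) := (ho1.mono (by omega)).sub ho0
      have h2 : (e1 S u - e0 S u).coeff o0 ≠ 0 := by
        rw [HahnSeries.coeff_sub, ho1 o0 (by omega), zero_sub]; exact neg_ne_zero.2 ho0'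
      have h3 : o0 = -(n : ℤ) := le_antisymm (le_of_ge h1 hd2) (le_of_ge hd1 h2)
      refine ⟨star u, fun h4 => hu0 (by simpa using congrArg star h4), ?_, ?_⟩
      · rw [e0_star]; exact ho1.mono (by omega)
      · rw [e1_star]; exact ho0.mono (by omega)

theorem U_congr {h' r' : F[X]} (hh : h = h') (hr : r = r') (S : Shape g h r) (S' : Shape g h' r')
    (n : ℕ) : U S n ↔ U S' n := by
  subst hh; subst hr; exact Iff.rfl

/-- the affine substitution `x ↦ u x + a`, normalised by `u ^ m` -/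
noncomputable def aff (m : ℕ) (u a : F) (p : F[X]) : F[X] :=
  C ((u ^ m)⁻¹) * p.comp (C u * X + C a)

theorem natDegree_lin {u : F} (hu : u ≠ 0) (a : F) : (C u * X + C a).natDegree = 1 :=
  natDegree_linear hu

theorem aff_aff (m : ℕ) {u : F} (hu : u ≠ 0) (a : F) (p : F[X]) :
    aff m u⁻¹ (-(a / u)) (aff m u a p) = p := by
  unfold aff
  rw [mul_comp, C_comp, comp_assoc, ← mul_assoc, ← C_mul]
  have h1 : ((u⁻¹ ^ m)⁻¹) * (u ^ m)⁻¹ = 1 := by
    rw [inv_pow, inv_inv, mul_inv_cancel₀ (pow_ne_zero _ hu)]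
  have h2 : (C u * X + C a : F[X]).comp (C u⁻¹ * X + C (-(a / u))) = X := by
    rw [add_comp, mul_comp, C_comp, X_comp, C_comp, mul_add, ← mul_assoc, ← C_mul, ← C_mul,
      mul_inv_cancel₀ hu, C_1, one_mul, mul_neg, mul_div_cancel₀ _ hu, C_neg]
    ring
  rw [h1, C_1, one_mul, h2, comp_X]

theorem aff_shape (S : Shape g h r) {u : F} (hu : u ≠ 0) (a : F) :
    Shape g (aff (g + 1) u a h) (aff (2 * g + 2) u a r) := by
  have hlin := natDegree_lin hu a
  have hdeg : (h.comp (C u * X + C a)).natDegree = g + 1 := by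
    rw [natDegree_comp, hlin, S.deg, mul_one]
  refine ⟨?_, ?_, ?_⟩
  · rw [Monic, aff, leadingCoeff_mul, leadingCoeff_C, leadingCoeff_comp (by rw [hlin]; omega),
      S.monic.leadingCoeff, S.deg, leadingCoeff_linear hu, one_mul,
      inv_mul_cancel₀ (pow_ne_zero _ hu)]
  · rw [aff, natDegree_C_mul (inv_ne_zero (pow_ne_zero _ hu)), hdeg]
  · rw [aff]
    refine (natDegree_C_mul_le _ _).trans ?_
    rw [natDegree_comp, hlin, mul_one]
    exact S.degr

theorem aff_ne_zero {m : ℕ} {u : F} (hu : u ≠ 0) (a : F) {p : F[X]} (hp : p ≠ 0) :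
    aff m u a p ≠ 0 := by
  intro h0
  apply hp
  rw [← aff_aff m hu a p, h0]
  simp [aff]

theorem U_aff_mp (S : Shape g h r) (hr : r ≠ 0) {u : F} (hu : u ≠ 0) (a : F)
    (S' : Shape g (aff (g + 1) u a h) (aff (2 * g + 2) u a r)) {n : ℕ} (hU : U S n) : U S' n := by
  rcases Nat.eq_zero_or_pos n with rfl | hn
  · exact U.zero S'
  obtain ⟨z, c, hc, hnorm, him, hdeg⟩ := (U_iff S hr hn).1 hU
  have hlin := natDegree_lin hu a
  refine (U_iff S' (aff_ne_zero hu a hr) hn).2 ⟨⟨z.re.comp (C u * X + C a),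
    C (u ^ (g + 1)) * z.im.comp (C u * X + C a)⟩, c, hc, ?_, ?_, ?_⟩
  · have h1 := congrArg (fun q => q.comp (C u * X + C a)) hnorm
    simp only [C_comp] at h1
    rw [← h1, QuadraticAlgebra.norm_def, QuadraticAlgebra.norm_def]
    simp only [add_comp, sub_comp, mul_comp, neg_comp, aff]
    have h2 : (C ((u ^ (g + 1))⁻¹) : F[X]) * C (u ^ (g + 1)) = 1 := by
      rw [← C_mul, inv_mul_cancel₀ (pow_ne_zero _ hu), C_1]
    have h3 : (C ((u ^ (2 * g + 2))⁻¹) : F[X]) * (C (u ^ (g + 1)) * C (u ^ (g + 1))) = 1 := by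
      rw [← C_mul, ← C_mul, ← pow_add]
      have : g + 1 + (g + 1) = 2 * g + 2 := by ring
      rw [this, inv_mul_cancel₀ (pow_ne_zero _ hu), C_1]
    linear_combination (-(h.comp (C u * X + C a)) * z.re.comp (C u * X + C a) *
        z.im.comp (C u * X + C a)) * h2 - (r.comp (C u * X + C a) * z.im.comp (C u * X + C a) *
        z.im.comp (C u * X + C a)) * h3
  · intro h0
    have h0' : C (u ^ (g + 1)) * z.im.comp (C u * X + C a) = 0 := h0
    rcases mul_eq_zero.1 h0' with h1 | h1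
    · rw [C_eq_zero] at h1
      exact pow_ne_zero _ hu h1
    · have h2 : (z.im.comp (C u * X + C a)).comp (C u⁻¹ * X + C (-(a / u))) = z.im := by
        have := aff_aff 0 hu a z.im
        simpa [aff] using this
      rw [h1, zero_comp] at h2
      exact him h2.symm
  · show (C (u ^ (g + 1)) * z.im.comp (C u * X + C a)).natDegree + (g + 1) = n
    rw [natDegree_C_mul (pow_ne_zero _ hu), natDegree_comp, hlin, mul_one, hdeg]

/-- invariance of the existence of units of order `n` under affine substitutions -/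
theorem U_aff (S : Shape g h r) (hr : r ≠ 0) {u : F} (hu : u ≠ 0) (a : F)
    (S' : Shape g (aff (g + 1) u a h) (aff (2 * g + 2) u a r)) (n : ℕ) : U S n ↔ U S' n := by
  constructor
  · exact U_aff_mp S hr hu a S'
  · intro hU
    have h1 := U_aff_mp S' (aff_ne_zero hu a hr) (inv_ne_zero hu) (-(a / u))
      (aff_shape S' (inv_ne_zero hu) _) hU
    exact (U_congr (aff_aff _ hu a h) (aff_aff _ hu a r) _ S n).1 h1

end

end Pool.Agent.TS
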