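import Pool.Agent.Helper23_TS.StmtsG
import Pool.Agent.Helper23_TS.Plc

/-!
The local theorem at a finite place of a number field.
-/

open Polynomial NumberField IsDedekindDomain

namespace Pool.Agent.TS

open H12UBI H58UB

theorem nv (lo : LoStmt) : NvStmt := by
  intro E _ _ w p g hp hpw h ρ c h' r' S hc hcu hcop hh hr hU
  have hdvr : IsDiscreteValuationRing (VR E w) := vr_dvr E w
  obtain ⟨hfin, hcard⟩ := vr_card E w hp hpw
  obtain ⟨π, hπ⟩ := IsDiscreteValuationRing.exists_irreducible (VR E w)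
  obtain ⟨e, ε, he, hen, hε, hpe⟩ := vr_ram E w hp hpw hπ
  have hinj := vr_inj E w
  subst hh
  subst hr
  have S' : Shape g h (C c * ρ) := by
    refine ⟨?_, ?_, ?_⟩
    · exact (Function.Injective.monic_map_iff hinj).2 S.monic
    · rw [← S.deg, natDegree_map_eq_of_injective hinj]
    · have := S.degr
      rwa [natDegree_map_eq_of_injective hinj] at this
  have hpc : π ∣ c := by
    have h1 : c ∈ IsLocalRing.maximalIdeal (VR E w) := (IsLocalRing.mem_maximalIdeal _).2 hcu
    rwa [hπ.maximalIdeal_eq, Ideal.mem_span_singleton] at h1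
  have hdat : Dat g h (C c * ρ) ρ c π := ⟨S', hπ, hc, hpc, rfl, hcop⟩
  obtain ⟨N, hN0, hN⟩ := hU
  obtain ⟨N', hN'0, hN'B, hN'⟩ := lo (VR E w) g h (C c * ρ) ρ c π hdat hfin S' p e ε hp he hε hpe
    ⟨N, hN0, U.of_frac (E := E) (S := S') hN⟩
  refine ⟨N', hN'0, hN'B.trans ?_, hN'.map (algebraMap (VR E w) E) hinj⟩
  unfold bl
  gcongr

end Pool.Agent.TS
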