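import Pool.Agent.Helper76_UBT.Trans

/-!
At a nonsplit place all conjugates of an element of the root field have the same absolute value.
-/

open Polynomial NumberField IsDedekindDomain
open scoped Pointwise

namespace Pool.Agent.TS

open UBT H76UBT

theorem orb (K L E : Type) [Field K] [NumberField K] [Field L] [NumberField L]
    [Field E] [NumberField E] [Algebra K L] [Algebra K E] (hprime : (Module.finrank K L).Prime)
    (v : Ideal (𝓞 K)) (hns : Nonsplit K L v)
    (w : HeightOneSpectrum (𝓞 E)) (hw : w.asIdeal.LiesOver v) (θ : L)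
    (hθ : θ ∉ (algebraMap K L).range) (hsplit : ((minpoly K θ).map (algebraMap K E)).Splits)
    (a b : E) (ha : aeval a (minpoly K θ) = 0) (hb : aeval b (minpoly K θ) = 0) (r : K[X]) :
    w.valuation E (aeval a r) = w.valuation E (aeval b r) := by
  classical
  have hθint : IsIntegral K θ := IsIntegral.of_finite K θ
  have htop : IntermediateField.adjoin K {θ} = ⊤ := by
    rcases (IntermediateField.isSimpleOrder_of_finrank_prime K L hprime).eq_bot_or_eq_top
      (IntermediateField.adjoin K {θ}) with h | h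
    · exact absurd (IntermediateField.mem_bot.1 (h ▸ IntermediateField.mem_adjoin_simple_self K θ)) hθ
    · exact h
  have hirr := minpoly.irreducible hθint
  have hsep : (minpoly K θ).Separable := hirr.separable
  have hne : minpoly K θ ≠ 0 := minpoly.ne_zero hθint
  let N : IntermediateField K E := IntermediateField.adjoin K ((minpoly K θ).rootSet E)
  have hsf : (minpoly K θ).IsSplittingField K N :=
    IntermediateField.adjoin_rootSet_isSplittingField hsplit
  have hgal : IsGalois K N := IsGalois.of_separable_splitting_field hsep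
  have hnf : NumberField N := inferInstance
  let u : Valuation N (WithZero (Multiplicative ℤ)) := (w.valuation E).comap (algebraMap N E)
  let W : Ideal (𝓞 N) := w.asIdeal.comap (algebraMap (𝓞 N) (𝓞 E))
  have hWp : W.IsPrime := Ideal.comap_isPrime _ _
  have hu : ∀ z : 𝓞 N, u (algebraMap (𝓞 N) N z) =
      w.valuation E (algebraMap (𝓞 E) E (algebraMap (𝓞 N) (𝓞 E) z)) := fun z => rfl
  have hu1 : ∀ z : 𝓞 N, u (algebraMap (𝓞 N) N z) ≤ 1 := fun z => by
    rw [hu]
    exact w.valuation_le_one _
  have hu2 : ∀ z : 𝓞 N, u (algebraMap (𝓞 N) N z) < 1 ↔ z ∈ W := fun z => by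
    rw [hu, w.valuation_lt_one_iff_mem]
    rfl
  have hWv : W.comap (algebraMap (𝓞 K) (𝓞 N)) = v := by
    rw [hw.over]
    rfl
  have hemb : ∀ x : E, aeval x (minpoly K θ) = 0 → ∃ j : L →ₐ[K] N,
      algebraMap N E (j θ) = x := by
    intro x hx
    have hxN : x ∈ N := IntermediateField.subset_adjoin K _ ((Polynomial.mem_rootSet).2 ⟨hne, hx⟩)
    have hx' : (⟨x, hxN⟩ : N) ∈ (minpoly K θ).aroots N := by
      refine Polynomial.mem_aroots.2 ⟨hne, ?_⟩
      apply (algebraMap N E).injective
      rw [map_zero, ← hx, ← Polynomial.aeval_algebraMap_apply]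
      rfl
    let e : L →ₐ[K] IntermediateField.adjoin K {θ} :=
      (IntermediateField.equivOfEq htop.symm).toAlgHom.comp
        (IntermediateField.topEquiv (F := K) (E := L)).symm.toAlgHom
    have he : e θ = IntermediateField.AdjoinSimple.gen K θ := Subtype.ext rfl
    let y : {y // y ∈ (minpoly K θ).aroots N} := ⟨⟨x, hxN⟩, hx'⟩
    have h1 : (IntermediateField.algHomAdjoinIntegralEquiv K hθint).symm y
        (IntermediateField.AdjoinSimple.gen K θ) = ⟨x, hxN⟩ :=
      IntermediateField.algHomAdjoinIntegralEquiv_symm_apply_gen K hθint y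
    refine ⟨((IntermediateField.algHomAdjoinIntegralEquiv K hθint).symm y).comp e, ?_⟩
    rw [AlgHom.comp_apply, he, h1]
    rfl
  obtain ⟨j₁, hj₁⟩ := hemb a ha
  obtain ⟨j₂, hj₂⟩ := hemb b hb
  obtain ⟨δ, hδ, hδ'⟩ := exists_stab K L N v hns W hWv j₁ j₂
  have h1 : w.valuation E (aeval a r) = u (aeval (j₁ θ) r) := by
    rw [← hj₁, Polynomial.aeval_algebraMap_apply]
    rfl
  have h2 : w.valuation E (aeval b r) = u (aeval (j₂ θ) r) := by
    rw [← hj₂, Polynomial.aeval_algebraMap_apply]
    rfl
  have h3 : aeval (j₁ θ) r = δ • (aeval (j₂ θ) r) := by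
    rw [← hδ' θ]
    exact Polynomial.aeval_algHom_apply δ.toAlgHom (j₂ θ) r
  rw [h1, h2, h3]
  exact val_smul (G := Gal(N/K)) u W hWp.ne_top hu1 hu2 (fun g z => rfl) δ hδ _

end Pool.Agent.TS
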