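import Pool.Agent.Helper23_TS.StmtsG
import Pool.Agent.Helper23_TS.Aff
import Pool.Agent.Helper23_TS.Plc
import Pool.Agent.Helper23_TS.Orb
import Pool.Agent.Helper81_UBT.Ext1

/-!
The bound at a nonsplit place of the root field of `h`, for all `r`.
-/

open Polynomial NumberField IsDedekindDomain

namespace Pool.Agent.TS

open H12UBI H58UB UBT

theorem gl (nb : NbStmt) : GlStmt := by
  classical
  intro K L _ _ _ _ _ g d p hprime hfin hd hp v hv hpv hns θ hθ Cv hC
  by_cases hfo : IsOfFinOrder Cv.infty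
  swap
  · rw [orderOf_eq_zero hfo]
    exact Nat.zero_le _
  obtain ⟨n₀, hn₀, hn₁⟩ := isOfFinOrder_iff_pow_eq_one.1 hfo
  have hU₀ : U Cv.shape n₀ := (Cv.infty_pow_eq_one_iff n₀).1 hn₁
  have hr0 : Cv.r ≠ 0 := Cv.r_ne_zero
  have hhne : Cv.h ≠ 0 := Cv.monic.ne_zero
  have hθint : IsIntegral K θ := IsIntegral.of_finite K θ
  have hirr := minpoly.irreducible hθint
  have hsep : (minpoly K θ).Separable := hirr.separable
  -- the splitting field
  obtain ⟨E, _, _, _, hspl, hdegE⟩ := ext1 K Cv.h hhne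
  rw [Cv.deg_h] at hdegE
  set hE := Cv.h.map (algebraMap K E) with hhE
  set rE := Cv.r.map (algebraMap K E) with hrE
  have S1 : Shape g hE rE := smap Cv.shape (algebraMap K E)
  have hrE0 : rE ≠ 0 := by
    rw [hrE, Ne, Polynomial.map_eq_zero]
    exact hr0
  have hnodup : hE.roots.Nodup := by
    refine nodup_roots ?_
    rw [hhE, hC]
    exact hsep.map
  have hcard : hE.roots.card = g + 1 := by
    rw [← hspl.natDegree_eq_card_roots, S1.deg]
  set T := hE.roots.toFinset with hT
  have hTmem : ∀ b, b ∈ T ↔ b ∈ hE.roots := fun b => Multiset.mem_toFinset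
  have hTcard : T.card = g + 1 := by
    rw [hT, Multiset.toFinset_card_of_nodup hnodup, hcard]
  have hprod : hE = ∏ b ∈ T, (X - C b) := by
    conv_lhs => rw [hspl.eq_prod_roots, S1.monic.leadingCoeff, C_1, one_mul]
    rw [Finset.prod, hT, Multiset.toFinset_val, Multiset.dedup_eq_self.2 hnodup]
  obtain ⟨α, hα, β, hβ, hαβ⟩ : ∃ α ∈ T, ∃ β ∈ T, α ≠ β := by
    have : 1 < T.card := by rw [hTcard]; exact hprime.one_lt
    exact Finset.one_lt_card.mp this
  have hroot : ∀ a ∈ T, aeval a (minpoly K θ) = 0 := by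
    intro a ha
    have := (mem_roots S1.monic.ne_zero).mp ((hTmem a).1 ha)
    rwa [IsRoot, hhE, hC, eval_map_algebraMap] at this
  set u := α - β with hu
  have hu0 : u ≠ 0 := sub_ne_zero.2 hαβ
  have S2 := aff_shape S1 hu0 α
  set h2 := aff (g + 1) u α hE with hh2
  set r2 := aff (2 * g + 2) u α rE with hr2
  -- the prime of `E`
  obtain ⟨⟨P, hPprime, hPv⟩⟩ := Ideal.nonempty_primesOver (S := 𝓞 E) v
  have hpP : ((p : ℕ) : 𝓞 E) ∈ P := by
    have h1 : ((p : ℕ) : 𝓞 K) ∈ P.under (𝓞 K) := by rw [← hPv.over]; exact hpv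
    have h2 : algebraMap (𝓞 K) (𝓞 E) ((p : ℕ) : 𝓞 K) ∈ P := h1
    rwa [map_natCast] at h2
  have hP0 : P ≠ ⊥ := by
    rintro rfl
    rw [Ideal.mem_bot, Nat.cast_eq_zero] at hpP
    exact hp.ne_zero hpP
  let w : HeightOneSpectrum (𝓞 E) := ⟨P, hPprime, hP0⟩
  have hw : w.asIdeal.LiesOver v := hPv
  have hspl' : ((minpoly K θ).map (algebraMap K E)).Splits := by rw [← hC]; exact hspl
  have hval : ∀ a ∈ T, ∀ b ∈ T, a ≠ b → w.valuation E ((a - b) / u) = 1 := by
    intro a ha b hb hab
    have h1 := H76UBT.trans K L E (by rw [hfin]; exact hprime) v hv hns w hw θ hθ hspl' a b α β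
      (hroot a ha) (hroot b hb) (hroot α hα) (hroot β hβ) hab hαβ
    rw [map_div₀, h1]
    refine div_self ?_
    rw [Ne, map_eq_zero]
    exact hu0
  let φ : E → E := fun a => (a - α) / u
  have hφinj : Function.Injective φ := by
    intro a b hab
    have h1 : (a - α) / u = (b - α) / u := hab
    field_simp at h1
    simpa using h1
  have hφdiff : ∀ a b, φ a - φ b = (a - b) / u := by
    intro a b
    simp only [φ]
    ring
  set T2 := T.image φ with hT2
  have hT2card : T2.card = g + 1 := by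
    rw [hT2, Finset.card_image_of_injective _ hφinj, hTcard]
  have hprod2 : h2 = ∏ b ∈ T2, (X - C b) := by
    rw [hT2, Finset.prod_image fun a _ b _ h => hφinj h, hh2, aff, hprod, Polynomial.prod_comp]
    have h3 : ∀ a ∈ T, (X - C a : E[X]).comp (C u * X + C α) = C u * (X - C (φ a)) := by
      intro a _
      have h4 : (C u : E[X]) * C (φ a) = C a - C α := by
        rw [← C_mul, ← C_sub]
        simp only [φ]
        rw [mul_div_cancel₀ _ hu0]
      rw [sub_comp, X_comp, C_comp, mul_sub, h4]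
      ring
    rw [Finset.prod_congr rfl h3, Finset.prod_mul_distrib, Finset.prod_const, hTcard,
      ← mul_assoc, ← C_pow, ← C_mul, inv_mul_cancel₀ (pow_ne_zero _ hu0), C_1, one_mul]
  have hroots2 : h2.roots = T2.val := by
    rw [hprod2]
    exact Polynomial.roots_prod_X_sub_C T2
  have hspl2 : h2.Splits := by
    rw [hprod2]
    exact Polynomial.Splits.prod fun b _ => Polynomial.Splits.X_sub_C b
  have hint2 : ∀ b ∈ T2, w.valuation E b ≤ 1 := by
    intro b hb
    obtain ⟨a, ha, rfl⟩ := Finset.mem_image.1 hb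
    by_cases h : a = α
    · simp only [φ]
      rw [h, sub_self, zero_div, map_zero]
      exact zero_le_one
    · exact (hval a ha α hα h).le
  -- finish from a bound over `E`
  have hUE : U S2 n₀ := (U_aff S1 hrE0 hu0 α S2 n₀).1 (hU₀.map (algebraMap K E)
    (algebraMap K E).injective)
  have hfinE : Module.Finite K E := FiniteDimensional.right ℚ K E
  have hdeg : Module.finrank ℚ E ≤ d * (g + 1).factorial := by
    rw [← Module.finrank_mul_finrank ℚ K E]
    exact Nat.mul_le_mul hd hdegE
  have fin : ∀ N, 0 < N → U S2 N → orderOf Cv.infty ≤ N := by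
    intro N hN hUN
    have h1 : U S1 N := (U_aff S1 hrE0 hu0 α S2 N).2 hUN
    have h2 : U Cv.shape N := U.of_ext (L := E) h1
    exact orderOf_le_of_pow_eq_one hN ((Cv.infty_pow_eq_one_iff N).2 h2)
  by_cases hcase : ∃ i, 1 ≤ w.valuation E (r2.coeff i)
  · -- `r` dominates
    obtain ⟨i, hi⟩ := hcase
    have hi0 : r2.coeff i ≠ 0 := by
      intro h0
      rw [h0, map_zero] at hi
      exact not_lt.2 hi zero_lt_one
    have hig : i ≤ g := (le_natDegree_of_ne_zero hi0).trans S2.degr
    have hcoef : ∀ j, w.valuation E (h2.coeff j) ≤ 1 := by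
      have hl : h2 ∈ Polynomial.lifts (algebraMap (VR E w) E) := by
        rw [hprod2]
        refine Subsemiring.prod_mem _ fun b hb => ?_
        refine (Polynomial.mem_lifts _).2 ⟨X - C ⟨b, (vr_mem E w b).2 (hint2 b hb)⟩, ?_⟩
        rw [Polynomial.map_sub, map_X, map_C]
        rfl
      intro j
      obtain ⟨q, hq⟩ := (Polynomial.mem_lifts _).1 hl
      rw [← hq, coeff_map]
      exact (vr_mem E w _).1 (q.coeff j).2
    have hdom : Dom g h2 r2 w := by
      refine dom_of hig hi0 fun j _ => ?_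
      exact (pow_le_one₀ zero_le (hcoef j)).trans (one_le_pow₀ hi)
    obtain ⟨N, hN0, hNB, hN⟩ := dom_bound (S := S2) hp hdeg (v := w) hpP hdom ⟨n₀, hn₀, hUE⟩
    exact (fin N hN0 hN).trans (hNB.trans (Nat.le_add_right _ _))
  · push Not at hcase
    obtain ⟨N, hN0, hNB, hN⟩ := nb E w p g hp hpP h2 r2 S2 (aff_ne_zero hu0 α hrE0) hspl2
      (by rw [hroots2]; exact T2.nodup)
      (by rw [hroots2]; exact hint2)
      (by
        rw [hroots2]
        intro a ha b hb hab
        obtain ⟨a', ha', rfl⟩ := Finset.mem_image.1 (show a ∈ T2 from ha)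
        obtain ⟨b', hb', rfl⟩ := Finset.mem_image.1 (show b ∈ T2 from hb)
        rw [hφdiff]
        exact hval a' ha' b' hb' fun h => hab (by rw [h]))
      hcase
      (by
        rw [hroots2]
        have key : ∀ a ∈ T, r2.eval (φ a) = (u ^ (2 * g + 2))⁻¹ * aeval a Cv.r := by
          intro a _
          rw [hr2, aff, eval_mul, eval_C, eval_comp, eval_add, eval_mul, eval_C, eval_X, eval_C]
          have h1 : u * φ a + α = a := by
            simp only [φ]
            rw [mul_div_cancel₀ _ hu0]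
            ring
          rw [h1, hrE, eval_map_algebraMap]
        intro a ha b hb
        obtain ⟨a', ha', rfl⟩ := Finset.mem_image.1 (show a ∈ T2 from ha)
        obtain ⟨b', hb', rfl⟩ := Finset.mem_image.1 (show b ∈ T2 from hb)
        rw [key a' ha', key b' hb', map_mul, map_mul,
          orb K L E (by rw [hfin]; exact hprime) v hns w hw θ hθ hspl' a' b'
            (hroot a' ha') (hroot b' hb') Cv.r])
      ⟨n₀, hn₀, hUE⟩
    refine (fin N hN0 hN).trans (hNB.trans ((?_ : _ ≤ bl g p (d * (g + 1).factorial)).trans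
      (Nat.le_add_left _ _)))
    unfold bl
    have hp1 : 1 ≤ p := hp.one_lt.le
    gcongr

end Pool.Agent.TS
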