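import Pool.Agent.Helper23_TS.StmtsG
import Pool.Agent.Helper23_TS.Plc

/-!
`h` with integral roots, distinct at `w`; `r` in the maximal ideal, of constant absolute value on
the roots of `h`.
-/

open Polynomial NumberField IsDedekindDomain

namespace Pool.Agent.TS

open H12UBI H58UB

theorem nb (nv : NvStmt) : NbStmt := by
  classical
  intro E _ _ w p g hp hpw h r S hr0 hsplit hnodup hint hdiff hrlt hconst hU
  have hdvr : IsDiscreteValuationRing (VR E w) := vr_dvr E w
  have hinj := vr_inj E w
  -- integral lifts of elements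
  let bb : E → VR E w := fun x => if hx : w.valuation E x ≤ 1 then ⟨x, (vr_mem E w x).2 hx⟩ else 0
  have hbb : ∀ x, w.valuation E x ≤ 1 → algebraMap (VR E w) E (bb x) = x := by
    intro x hx
    simp only [bb]
    rw [dif_pos hx]
    rfl
  set T := h.roots.toFinset with hT
  have hTmem : ∀ b, b ∈ T ↔ b ∈ h.roots := fun b => Multiset.mem_toFinset
  have hcard : T.card = g + 1 := by
    rw [hT, Multiset.toFinset_card_of_nodup hnodup, ← S.deg]
    exact hsplit.natDegree_eq_card_roots.symm
  have hprod : h = ∏ b ∈ T, (X - C b) := by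
    conv_lhs => rw [hsplit.eq_prod_roots, S.monic.leadingCoeff, C_1, one_mul]
    rw [Finset.prod, hT, Multiset.toFinset_val, Multiset.dedup_eq_self.2 hnodup]
  set h₁ : (VR E w)[X] := ∏ b ∈ T, (X - C (bb b)) with hh₁
  have hh₁map : h₁.map (algebraMap (VR E w) E) = h := by
    conv_rhs => rw [hprod]
    rw [hh₁, Polynomial.map_prod]
    refine Finset.prod_congr rfl fun b hb => ?_
    rw [Polynomial.map_sub, map_X, map_C, hbb b (hint b ((hTmem b).1 hb))]
  -- the content of `r`
  obtain ⟨i₀, hi₀, hmax⟩ := Finset.exists_max_image (Finset.range (g + 1))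
    (fun j => w.valuation E (r.coeff j)) ⟨0, by simp⟩
  have hmax' : ∀ j, w.valuation E (r.coeff j) ≤ w.valuation E (r.coeff i₀) := by
    intro j
    rcases Nat.lt_or_ge j (g + 1) with hj | hj
    · exact hmax j (Finset.mem_range.2 hj)
    · rw [coeff_eq_zero_of_natDegree_lt (lt_of_le_of_lt S.degr hj), map_zero]
      exact zero_le
  set c := r.coeff i₀ with hc
  have hc0 : c ≠ 0 := by
    intro h0
    apply hr0
    ext j
    have h1 := hmax' j
    rw [h0, map_zero, le_zero_iff, Valuation.zero_iff] at h1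
    rw [h1, coeff_zero]
  have hvc : w.valuation E c ≠ 0 := (Valuation.ne_zero_iff _).2 hc0
  set ρE : E[X] := C c⁻¹ * r with hρE
  have hρint : ∀ j, w.valuation E (ρE.coeff j) ≤ 1 := by
    intro j
    rw [hρE, coeff_C_mul, map_mul, map_inv₀, mul_comm, ← div_eq_mul_inv]
    exact div_le_one_of_le₀ (hmax' j) zero_le
  obtain ⟨ρ, hρ⟩ := vr_lift E w hρint
  have hrc : r = C c * ρE := by
    rw [hρE, ← mul_assoc, ← C_mul, mul_inv_cancel₀ hc0, C_1, one_mul]
  have hrmap : r = (C (bb c) * ρ).map (algebraMap (VR E w) E) := by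
    rw [Polynomial.map_mul, map_C, hbb c (hrlt i₀).le, hρ]
    exact hrc
  have hbc0 : bb c ≠ 0 := by
    intro h0
    apply hc0
    rw [← hbb c (hrlt i₀).le, h0, map_zero]
  have hbcu : ¬ IsUnit (bb c) := by
    rw [vr_lt]
    have h1 : ((bb c : VR E w) : E) = c := hbb c (hrlt i₀).le
    rw [h1]
    exact hrlt i₀
  -- values of `ρ` at the roots
  have hres : ∀ x : VR E w, IsLocalRing.residue (VR E w) x = 0 ↔ w.valuation E (x : E) < 1 := by
    intro x
    rw [IsLocalRing.residue_eq_zero_iff, IsLocalRing.mem_maximalIdeal, mem_nonunits_iff, vr_lt]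
  have hval : ∀ b ∈ T, ((ρ.eval (bb b) : VR E w) : E) = ρE.eval b := by
    intro b hb
    have h1 : algebraMap (VR E w) E (ρ.eval (bb b)) = (ρ.map (algebraMap (VR E w) E)).eval
        (algebraMap (VR E w) E (bb b)) := (Polynomial.eval_map_apply _ _).symm
    rw [hρ, hbb b (hint b ((hTmem b).1 hb))] at h1
    exact h1
  have hρval : ∀ a ∈ T, ∀ b ∈ T, w.valuation E (ρE.eval a) = w.valuation E (ρE.eval b) := by
    intro a ha b hb
    rw [hρE, eval_mul, eval_mul, eval_C, map_mul, map_mul, eval_C,
      hconst a ((hTmem a).1 ha) b ((hTmem b).1 hb)]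
  have hρne : ρ.map (IsLocalRing.residue (VR E w)) ≠ 0 := by
    intro h0
    have h1 : IsLocalRing.residue (VR E w) (ρ.coeff i₀) = 0 := by
      rw [← coeff_map, h0, coeff_zero]
    rw [hres] at h1
    have h2 : ((ρ.coeff i₀ : VR E w) : E) = 1 := by
      have h3 : algebraMap (VR E w) E (ρ.coeff i₀) = ρE.coeff i₀ := by rw [← hρ, coeff_map]
      have h4 : ρE.coeff i₀ = 1 := by
        rw [hρE, coeff_C_mul, ← hc, inv_mul_cancel₀ hc0]
      rw [h4] at h3
      exact h3
    rw [h2, map_one] at h1
    exact lt_irrefl _ h1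
  have hρdeg : (ρ.map (IsLocalRing.residue (VR E w))).natDegree ≤ g := by
    refine natDegree_map_le.trans ?_
    have h1 : (ρ.map (algebraMap (VR E w) E)).natDegree = ρ.natDegree :=
      natDegree_map_eq_of_injective hinj _
    rw [← h1, hρ, hρE]
    exact (natDegree_C_mul_le _ _).trans S.degr
  have hroot : ∀ b ∈ T, (ρ.map (IsLocalRing.residue (VR E w))).eval
      (IsLocalRing.residue (VR E w) (bb b)) ≠ 0 := by
    intro b hb h0
    have hev : ∀ a : VR E w, (ρ.map (IsLocalRing.residue (VR E w))).eval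
        (IsLocalRing.residue (VR E w) a) = IsLocalRing.residue (VR E w) (ρ.eval a) := by
      intro a
      exact Polynomial.eval_map_apply _ _
    rw [hev, hres, hval b hb] at h0
    apply hρne
    refine Polynomial.eq_zero_of_natDegree_lt_card_of_eval_eq_zero'
      (s := T.image fun a => IsLocalRing.residue (VR E w) (bb a)) _ ?_ ?_
    · intro x hx
      obtain ⟨a, ha, rfl⟩ := Finset.mem_image.1 hx
      rw [hev, hres, hval a ha, hρval a ha b hb]
      exact h0
    · rw [Finset.card_image_of_injOn, hcard]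
      · omega
      · intro a ha a' ha' haa
        by_contra hne
        have h1 : IsLocalRing.residue (VR E w) (bb a - bb a') = 0 := by
          rw [map_sub]
          exact sub_eq_zero.2 haa
        rw [hres] at h1
        have h2 : ((bb a - bb a' : VR E w) : E) = a - a' := by
          have h3 : algebraMap (VR E w) E (bb a - bb a') = a - a' := by
            rw [map_sub, hbb a (hint a ((hTmem a).1 ha)), hbb a' (hint a' ((hTmem a').1 ha'))]
          exact h3
        rw [h2, hdiff a ((hTmem a).1 ha) a' ((hTmem a').1 ha') hne] at h1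
        exact lt_irrefl _ h1
  have hcop : IsCoprime (rd _ h₁) (rd _ ρ) := by
    rw [hh₁]
    unfold rd
    rw [Polynomial.map_prod]
    refine IsCoprime.prod_left fun b hb => ?_
    rw [Polynomial.map_sub, map_X, map_C]
    rw [(irreducible_X_sub_C _).coprime_iff_not_dvd, dvd_iff_isRoot]
    exact hroot b hb
  exact nv E w p g hp hpw h₁ ρ (bb c) h r S hbc0 hbcu hcop hh₁map.symm hrmap hU

end Pool.Agent.TS
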