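import Pool.Agent.Helper23_TS.Stmts
import Pool.Agent.Helper27_UBT.Stmts

/-!
Statements for the global part.
-/

open Polynomial NumberField IsDedekindDomain

namespace Pool.Agent.TS

open H12UBI H58UB UBT

/-- TA: translations. -/
def TaStmt : Prop := ∀ (F : Type) [Field F] (g : ℕ) (h r : F[X]) (S : Shape g h r) (a : F)
  (S' : Shape g (h.comp (X + C a)) (r.comp (X + C a))) (n : ℕ), r ≠ 0 → (U S n ↔ U S' n)

/-- the local bound -/
def bl (g p d : ℕ) : ℕ := (g + 1) * (p ^ d) ^ (g + 1) * (2 * d)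

/-- NV: the local theorem at a finite place of a number field, with models over the local ring. -/
def NvStmt : Prop := ∀ (E : Type) [Field E] [NumberField E] (w : HeightOneSpectrum (𝓞 E))
  (p g : ℕ), p.Prime → ((p : ℕ) : 𝓞 E) ∈ w.asIdeal →
  ∀ (h ρ : (HeightOneSpectrum.valuationSubringAtPrime E w)[X])
    (c : HeightOneSpectrum.valuationSubringAtPrime E w) (h' r' : E[X]) (S : Shape g h' r'),
    c ≠ 0 → ¬ IsUnit c → IsCoprime (rd _ h) (rd _ ρ) →
    h' = h.map (algebraMap _ E) → r' = (C c * ρ).map (algebraMap _ E) →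
    (∃ N, 0 < N ∧ U S N) →
    ∃ N, 0 < N ∧ N ≤ bl g p (Module.finrank ℚ E) ∧ U S N

/-- NB: the same for `h` with integral roots, distinct at `w`, and `r` of constant absolute value
on the roots of `h`. -/
def NbStmt : Prop := ∀ (E : Type) [Field E] [NumberField E] (w : HeightOneSpectrum (𝓞 E))
  (p g : ℕ), p.Prime → ((p : ℕ) : 𝓞 E) ∈ w.asIdeal →
  ∀ (h r : E[X]) (S : Shape g h r), r ≠ 0 → h.Splits → h.roots.Nodup →
    (∀ b ∈ h.roots, w.valuation E b ≤ 1) →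
    (∀ a ∈ h.roots, ∀ b ∈ h.roots, a ≠ b → w.valuation E (a - b) = 1) →
    (∀ i, w.valuation E (r.coeff i) < 1) →
    (∀ a ∈ h.roots, ∀ b ∈ h.roots, w.valuation E (r.eval a) = w.valuation E (r.eval b)) →
    (∃ N, 0 < N ∧ U S N) →
    ∃ N, 0 < N ∧ N ≤ bl g p (Module.finrank ℚ E) ∧ U S N

/-- the global bound -/
def bg (g p d : ℕ) : ℕ :=
  bd g (d * (g + 1).factorial * (2 * g + 2)) p + bl g p (d * (g + 1).factorial)

/-- GL: the bound at a nonsplit place of the root field of `h`, all `r`. -/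
def GlStmt : Prop := ∀ (K L : Type) [Field K] [NumberField K] [Field L] [NumberField L]
  [Algebra K L] (g d p : ℕ), (g + 1).Prime → Module.finrank K L = g + 1 →
  Module.finrank ℚ K ≤ d → p.Prime → ∀ v : Ideal (𝓞 K), v.IsPrime → ((p : ℕ) : 𝓞 K) ∈ v →
  Nonsplit K L v → ∀ θ : L, θ ∉ (algebraMap K L).range →
  ∀ C : Curve g K, C.h = minpoly K θ → orderOf C.infty ≤ bg g p d

/-- EX: a nonsplit place persists in extensions of degree prime to `n`. -/
def ExStmt : Prop := ∀ (K L K₁ : Type) [Field K] [NumberField K] [Field L] [NumberField L]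
  [Field K₁] [NumberField K₁] [Algebra K L] [Algebra K K₁] (n : ℕ), n.Prime →
  Module.finrank K L = n → ¬ n ∣ Module.finrank K K₁ → ∀ v : Ideal (𝓞 K), v.IsPrime → v ≠ ⊥ →
  Nonsplit K L v → ∀ θ : L, θ ∉ (algebraMap K L).range →
  ∃ (L₁ : Type) (_ : Field L₁) (_ : NumberField L₁) (_ : Algebra K₁ L₁) (θ₁ : L₁)
    (v₁ : Ideal (𝓞 K₁)), Module.finrank K₁ L₁ = n ∧ θ₁ ∉ (algebraMap K₁ L₁).range ∧
    minpoly K₁ θ₁ = (minpoly K θ).map (algebraMap K K₁) ∧ v₁.IsPrime ∧ v₁.LiesOver v ∧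
    Nonsplit K₁ L₁ v₁

/-- RF: bounded root field of prime degree, all `r`. -/
def RfStmt : Prop := ∀ (K : Type) [Field K] [NumberField K] (g D Δ : ℕ), (g + 1).Prime →
  ∃ B : ℕ, ∀ (L : Type) [Field L] [NumberField L] [Algebra K L],
    Module.finrank K L = g + 1 → |NumberField.discr L| ≤ Δ →
    ∀ θ : L, θ ∉ (algebraMap K L).range →
    ∀ (K₁ : Type) [Field K₁] [NumberField K₁] [Algebra K K₁], Module.finrank K K₁ ≤ D →
    ¬ (g + 1) ∣ Module.finrank K K₁ →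
    ∀ C : Curve g K₁, C.h = (minpoly K θ).map (algebraMap K K₁) → orderOf C.infty ≤ B

/-- LC: local criterion: `h` integral at `v` and either some coefficient of `r` is not in the
maximal ideal or the resultant of `h` and `r` (the norm of `r` in `K[x]/(h)`) is as large as
possible. -/
def LcStmt : Prop := ∀ (g d p : ℕ), p.Prime → ∀ (K : Type) [Field K] [NumberField K],
  Module.finrank ℚ K ≤ d → ∀ (C : Curve g K) (v : HeightOneSpectrum (𝓞 K)),
  ((p : ℕ) : 𝓞 K) ∈ v.asIdeal → (∀ j, vabs v (C.h.coeff j) ≤ 1) →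
  ((∃ i, 1 ≤ vabs v (C.r.coeff i)) ∨
    ∀ i, vabs v (C.r.coeff i) ^ (g + 1) ≤ vabs v (Algebra.norm K (AdjoinRoot.mk C.h C.r))) →
  orderOf C.infty ≤ bd g (d * (2 * g + 2)) p + bl g p d

/-- MN: in the mean over `h`, uniformly in `r` -/
def MnStmt : Prop := ∀ (K : Type) [Field K] [NumberField K] (ι : Type) [Fintype ι]
  (b : Module.Basis ι ℤ (𝓞 K)) (g D : ℕ), (∀ i, 0 < i → i ≤ D → Nat.Coprime i (g + 1)) →
  ∀ ε : ℝ, 0 < ε → ∃ B H₀ : ℕ, ∀ H : ℕ, H₀ ≤ H →
  ({a : Fin (g + 1) → 𝓞 K | (∀ i j, |b.repr (a i) j| ≤ H) ∧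
    ∃ (K₁ : Type) (_ : Field K₁) (_ : NumberField K₁) (_ : Algebra K K₁) (C : Curve g K₁),
      Module.finrank K K₁ ≤ D ∧
      C.h = X ^ (g + 1) + ∑ i : Fin (g + 1), Polynomial.C (algebraMap K K₁ (algebraMap (𝓞 K) K (a i))) * X ^ (i : ℕ) ∧
      B < orderOf C.infty}.ncard : ℝ) ≤
  ε * (2 * H + 1) ^ (Module.finrank ℚ K * (g + 1))

end Pool.Agent.TS
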