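import Pool.Agent.Helper23_TS.StmtsG

/-!
Statement IR: `h` irreducible modulo a place, all `r`, over all extensions of small degree.
-/

open Polynomial NumberField IsDedekindDomain

namespace Pool.Agent.TS

open H12UBI H58UB UBT

/-- IR: `h` integral, irreducible modulo `v`; all `r` over all extensions of degree at most `D`
(every number up to `D` prime to `g + 1`). -/
def IrStmt : Prop := ∀ (K K₁ : Type) [Field K] [NumberField K] [Field K₁] [NumberField K₁]
  [Algebra K K₁] (g D d p : ℕ), (∀ i, 0 < i → i ≤ D → Nat.Coprime i (g + 1)) →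
  Module.finrank K K₁ ≤ D → Module.finrank ℚ K ≤ d → p.Prime →
  ∀ v : HeightOneSpectrum (𝓞 K), ((p : ℕ) : 𝓞 K) ∈ v.asIdeal →
  ∀ h : (𝓞 K)[X], h.Monic → Irreducible (h.map (Ideal.Quotient.mk v.asIdeal)) →
  ∀ C : Curve g K₁, C.h = (h.map (algebraMap (𝓞 K) K)).map (algebraMap K K₁) →
  orderOf C.infty ≤ bd g (D * d * (2 * g + 2)) p + bl g p (D * d)

end Pool.Agent.TS
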